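import Pool.Agent.MP_9caa86_co.H16.Example
import Pool.Agent.MP_9caa86_co.H45.Draw
import Pool.Agent.MP_9caa86_co.H25.Book

set_option autoImplicit false

namespace Pool.Agent.Results.MP_9caa86_co.StraightQuadratic

open Pool.Agent.MP_9caa86_co.H16 Pool.Agent.MP_9caa86_co.H45

theorem result (n : ℕ) (hn : 40 ≤ n) :
    (∃ E : Fin n → Fin n → Prop, IsBipDAG E ∧ UpwardPlanar E ∧
      ∀ W H : ℕ, StraightDrawingIn E W H → n ^ 2 ≤ 256 * (W * H)) ∧
    (∀ E : Fin n → Fin n → Prop, IsBipDAG E → UpwardPlanar E →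
      ∃ W H : ℕ, StraightDrawingIn E W H ∧ W * H ≤ 20 * n ^ 2) := by
  constructor
  · refine ⟨fun u v => EN u v, ex_bip n, ex_upward n, fun W H h => ?_⟩
    obtain ⟨h1, h2⟩ := ex_lower n (by omega) h.poly
    have a : n ≤ 16 * W := by omega
    have b : n ≤ 16 * H := by omega
    calc n ^ 2 = n * n := by ring
      _ ≤ (16 * W) * (16 * H) := Nat.mul_le_mul a b
      _ = 256 * (W * H) := by ring
  · intro E hB hU
    obtain ⟨k, h1, h2, h3, h4⟩ := Pool.Agent.MP_9caa86_co.H25.two_page hB hU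
    refine ⟨_, _, draw hB k h1 h2 h3 h4, ?_⟩
    nlinarith

end Pool.Agent.Results.MP_9caa86_co.StraightQuadratic
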